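import Pool.Agent.H20.KH.Stmts
import Pool.Agent.H33.KG.CHF

/-!
# Project KH, module CF2: the chain of blocks
-/

set_option autoImplicit false
set_option linter.unusedSectionVars false

open MeasureTheory Set Filter Topology
open scoped ContDiff

namespace Pool.Agent.H20.KH

open Pool.Agent.H84 Pool.Agent.H84.Sym Pool.Agent.H84.Sym.P2x Pool.Agent.H19.KL
open Pool.Agent.H73.KG

theorem cf2_thm (hM : ∀ (E : Type) [NormedAddCommGroup E] [InnerProductSpace ℝ E]
    [FiniteDimensional ℝ E] [MeasurableSpace E] [BorelSpace E], MGLStmt E)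
    (hS2 : ∀ (E : Type) [NormedAddCommGroup E] [InnerProductSpace ℝ E]
    [FiniteDimensional ℝ E] [MeasurableSpace E] [BorelSpace E], SP2Stmt E)
    (hQ : ∀ (E : Type) [NormedAddCommGroup E] [InnerProductSpace ℝ E]
    [FiniteDimensional ℝ E] [MeasurableSpace E] [BorelSpace E], MQ2Stmt E)
    (hC : CH2Stmt) : CF2Stmt := by
  classical
  obtain ⟨C, hC1, hC⟩ := hC
  refine ⟨5 + C, by linarith, ?_⟩
  intro E _ _ _ _ _ U t hU ht h5 r d e m β Dd hb ψ hψ hψ1
  set R : Finset E := (Finset.range r).biUnion fun j => (Finset.range (d j)).image (e j)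
    with hR
  set S : Submodule ℝ E := (Submodule.span ℝ (R : Set E))ᗮ with hS
  have hSS : Sᗮ = Submodule.span ℝ (R : Set E) := by
    rw [hS, Submodule.orthogonal_orthogonal]
  have hfin : Module.finrank ℝ Sᗮ ≤ ∑ j ∈ Finset.range r, d j := by
    rw [hSS]
    refine (finrank_span_finset_le_card R).trans ?_
    rw [hR]
    refine Finset.card_biUnion_le.trans (Finset.sum_le_sum fun j _ => ?_)
    exact Finset.card_image_le.trans (by simp)
  have heS : ∀ j < r, ∀ i < d j, e j i ∈ Sᗮ := by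
    intro j hj i hi
    rw [hSS]
    refine Submodule.subset_span ?_
    rw [Finset.mem_coe, hR]
    refine Finset.mem_biUnion.2 ⟨j, Finset.mem_range.2 hj, ?_⟩
    exact Finset.mem_image_of_mem _ (Finset.mem_range.2 hi)
  obtain ⟨hB, -, -, -, -, hcov⟩ := hM E U t hU S
  obtain ⟨hq, hv0, hv1⟩ := hQ E U t hU S ψ hψ
  set e' : ℕ → ℕ → Sᗮ := fun j i => if h : j < r ∧ i < d j then ⟨e j i, heS j h.1 i h.2⟩ else 0
    with he'
  have he : ∀ j < r, ∀ i < d j, ((e' j i : Sᗮ) : E) = e j i := by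
    intro j hj i hi
    simp only [he']
    rw [dif_pos ⟨hj, hi⟩]
  have hblk : ∀ l : ℝ, 0 < l → Bk0 t r d e' (fun j i => l * m j i) (fun j => l * β j) Dd := by
    intro l hl
    refine ⟨?_, ?_, ?_, hb.size, hb.big⟩
    · intro j hj i hi j' hj' i' hi'
      rw [Submodule.coe_inner, he j hj i hi, he j' hj' i' hi']
      exact hb.orth j hj i hi j' hj' i' hi'
    · intro j hj i hi
      rw [abs_mul, abs_of_pos hl]
      exact mul_le_mul_of_nonneg_left (hb.coef j hj i hi) hl.le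
    · intro j hj
      exact mul_nonneg hl.le (hb.nonneg j hj)
  have hOSI : OSI (mg S U) (fun _ => 0) (fun _ => 0) := by
    refine ⟨contDiff_const, continuous_const, ⟨0, fun x => by simp⟩, fun x X => ?_⟩
    obtain ⟨C', hP⟩ := hB.1.1
    have h1 := hP.hess x X
    have h2 := mul_nonneg hP.pos.le (sq_nonneg ‖X‖)
    have h4 : fderiv ℝ (fun _ : Sᗮ => (0:ℝ)) x = 0 := by simp
    rw [h4]
    simp only [zero_apply, mul_zero]
    linarith
  have hqe : ∀ j < r, ∀ i < d j, q2 (mg S U) (cav S U ψ) (e' j i) (e' j i) =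
      q2 U ψ (e j i) (e j i) := by
    intro j hj i hi
    rw [hq, he j hj i hi]
  have hcv1 : cv (mg S U) (cav S U ψ) (cav S U ψ) ≤ 1 := hv1.trans hψ1
  have hsq1 : Real.sqrt (cv (mg S U) (cav S U ψ) (cav S U ψ)) ≤ 1 :=
    Real.sqrt_le_one.2 hcv1
  set T : ℝ := ∑ j ∈ Finset.range r, ∑ i ∈ Finset.range (d j), m j i * q2 U ψ (e j i) (e j i)
    with hT
  set A : ℝ := ∑ j ∈ Finset.range r, β j ^ 2 * Dd j with hA
  set B : ℝ := ∑ j ∈ Finset.range r, β j * Real.sqrt (∑ i ∈ Finset.range j, (d i : ℝ)) / t ^ 2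
    with hBd
  have hA0 : 0 ≤ A := Finset.sum_nonneg fun j hj => mul_nonneg (sq_nonneg _)
    ((Nat.cast_nonneg _).trans (hb.size j (Finset.mem_range.1 hj)))
  have hB0 : 0 ≤ B := Finset.sum_nonneg fun j hj => div_nonneg
    (mul_nonneg (hb.nonneg j (Finset.mem_range.1 hj)) (Real.sqrt_nonneg _)) (sq_nonneg _)
  refine CHF_num hC1 hA0 hB0 fun l hl => ?_
  have hGC : GC (cav S U ψ) := (hS2 E U t hU S ψ ψ hψ hψ).1
  have h := hC r Sᗮ (mg S U) t hB ht (hcov 5 h5) d e' _ _ Dd (hblk l hl) hfin _ _ hOSI _ hGC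
  have e0 : cv (mg S U) (cav S U ψ) (fun _ => 0) = 0 := by
    unfold Pool.Agent.H73.KG.cv
    simp
  have e1 : ∑ j ∈ Finset.range r, ∑ i ∈ Finset.range (d j), l * m j i *
      q2 (mg S U) (cav S U ψ) (e' j i) (e' j i) = l * T := by
    rw [hT, Finset.mul_sum]
    refine Finset.sum_congr rfl fun j hj => ?_
    rw [Finset.mul_sum]
    refine Finset.sum_congr rfl fun i hi => ?_
    rw [hqe j (Finset.mem_range.1 hj) i (Finset.mem_range.1 hi)]
    ring
  have e2 : ∑ j ∈ Finset.range r, ((l * β j) ^ 2 * Dd j +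
      l * β j * Real.sqrt (∑ i ∈ Finset.range j, (d i : ℝ)) / t ^ 2 *
        Real.sqrt (cv (mg S U) (cav S U ψ) (cav S U ψ))) ≤ l ^ 2 * A + l * B := by
    rw [hA, hBd, Finset.mul_sum, Finset.mul_sum, ← Finset.sum_add_distrib]
    refine Finset.sum_le_sum fun j hj => ?_
    have h6 : 0 ≤ l * β j * Real.sqrt (∑ i ∈ Finset.range j, (d i : ℝ)) / t ^ 2 := by
      have := hb.nonneg j (Finset.mem_range.1 hj)
      positivity
    have h7 := mul_le_mul_of_nonneg_left hsq1 h6
    have h8 : l * β j * Real.sqrt (∑ i ∈ Finset.range j, (d i : ℝ)) / t ^ 2 * 1 =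
      l * (β j * Real.sqrt (∑ i ∈ Finset.range j, (d i : ℝ)) / t ^ 2) := by ring
    rw [h8] at h7
    nlinarith
  rw [e0, e1] at h
  simp only [integral_zero] at h
  have h9 := mul_le_mul_of_nonneg_left e2 (by linarith : 0 ≤ C)
  linarith

end Pool.Agent.H20.KH
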