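import Pool.Agent.H20.KH.Stmts
import Pool.Agent.H44.KG.SCL

/-!
# Project KH, module SL2: scaling
-/

set_option autoImplicit false

namespace Pool.Agent.H20.KH

open Pool.Agent.H73.KG

theorem sl2_thm (h : TC2Stmt) : SL2Stmt := by
  obtain ⟨C, hC, h⟩ := h
  refine ⟨C, hC, ?_⟩
  intro E _ _ _ _ _ U t a M hU ha hc hM f hf hf'
  refine (SCL_one (fun U t => h E U t) U t a M hU ha hc hM f hf hf').trans (le_of_eq ?_)
  ring

end Pool.Agent.H20.KH
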